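import Pool.Agent.H92.SG.Stmts

/-! MP_046772_gt, board `sg7`, module WT: vectors of large weight in a subspace. -/

set_option autoImplicit false

namespace Pool.Agent.H58.SG

open Pool.Agent.H92.SG

theorem wt_aux (k : Type) [Field k] [DecidableEq k] (n : ℕ) (S : Submodule k (Fin n → k)) (m : ℕ) :
    m ≤ Module.finrank k S → ∃ v ∈ S, m ≤ (Finset.univ.filter fun i => v i ≠ 0).card := by
  induction m with
  | zero => exact fun _ => ⟨0, S.zero_mem, Nat.zero_le _⟩
  | succ m ih =>
    intro hm
    obtain ⟨v, hv, hc⟩ := ih (by omega)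
    rcases Nat.lt_or_ge m (Finset.univ.filter fun i => v i ≠ 0).card with h | h
    · exact ⟨v, hv, h⟩
    · have hcard : (Finset.univ.filter fun i => v i ≠ 0).card = m := le_antisymm h hc
      set J : Finset (Fin n) := Finset.univ.filter fun i => v i ≠ 0 with hJ
      let f : S →ₗ[k] (J → k) :=
        (LinearMap.funLeft k k (Subtype.val : J → Fin n)).comp S.subtype
      have hlt : Module.finrank k (J → k) < Module.finrank k S := by
        rw [Module.finrank_fintype_fun_eq_card, Fintype.card_coe, hcard]
        omega
      obtain ⟨w, hw, hw0⟩ := (Submodule.ne_bot_iff _).1 (LinearMap.ker_ne_bot_of_finrank_lt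
        (f := f) hlt)
      have hwJ : ∀ i ∈ J, (w : Fin n → k) i = 0 := fun i hi =>
        congrFun (LinearMap.mem_ker.1 hw) ⟨i, hi⟩
      have hex : ∃ i, (w : Fin n → k) i ≠ 0 := by
        by_contra hno
        push Not at hno
        exact hw0 (Subtype.ext (funext hno))
      obtain ⟨i₀, hi₀⟩ := hex
      have hi₀J : i₀ ∉ J := fun h => hi₀ (hwJ i₀ h)
      refine ⟨v + w, S.add_mem hv w.2, ?_⟩
      have hsub : insert i₀ J ⊆ Finset.univ.filter fun i => (v + (w : Fin n → k)) i ≠ 0 := by
        intro i hi
        rw [Finset.mem_filter]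
        refine ⟨Finset.mem_univ _, ?_⟩
        rcases Finset.mem_insert.1 hi with rfl | hi
        · have : v i = 0 := by
            by_contra h0
            exact hi₀J (by rw [hJ, Finset.mem_filter]; exact ⟨Finset.mem_univ _, h0⟩)
          rw [Pi.add_apply, this, zero_add]
          exact hi₀
        · rw [Pi.add_apply, hwJ i hi, add_zero]
          rw [hJ, Finset.mem_filter] at hi
          exact hi.2
      calc m + 1 = (insert i₀ J).card := by rw [Finset.card_insert_of_notMem hi₀J, hcard]
        _ ≤ _ := Finset.card_le_card hsub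

theorem WT_thm : WtStmt := fun k _ _ n S => wt_aux k n S _ le_rfl

end Pool.Agent.H58.SG
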